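import Pool.Agent.helper33.AglerTransport

/-!
# Reducing Agler subspaces exist only for products of one-variable inner functions

For every inner function `θ` on the bidisk, `S_{z₁}` or `S_{z₂}` has reducing Agler subspaces if
and only if `θ(z) = φ(z₁) ψ(z₂)` with `φ`, `ψ` inner.  The definitions used in the statement are in
`Pool.Agent.helper33.AglerStatement`.

Idea of the proof of the forward implication.  Let `𝓢₁` be invariant under `S_{z₁}^*`.  Then
`W = 𝓢₁^⊥` (taken in `H²(𝔻²)`) reduces `T_{z₁}` and contains `θ`, hence it contains all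
`z₁^m θ_i(z₂)`, where `θ(z) = ∑ z₁^i θ_i(z₂)`.  Since the kernels of `𝓢₁` and `𝓢₂` add up to
the kernel of `K_θ`, every vector of `W ∩ K_θ` belongs to `𝓢₂`, with the inner product of `K_θ`,
and so stays in `K_θ` after multiplication by powers of `z₂`.  This gives
`⟪z₂^k θ_i, θ_m⟫ = 0` for all `k ≥ 1` and all `i`, `m`, and two nonzero square summable sequences
with orthogonal shifted copies cannot be orthogonal to each other, so that the `θ_i` are
proportional: `θ(z) = φ(z₁) ψ(z₂)`.  An averaging argument shows that both factors have radial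
limits of constant modulus almost everywhere.

The argument is carried out in the coefficient model `H2` of `H²(𝔻²)`, with multiplication
operators `AglerBidisk.T₁` and `AglerBidisk.T₂`, and transported to any model.
-/

open Filter Topology ComplexConjugate InnerProductSpace MeasureTheory
open scoped ComplexOrder Real

namespace Pool.Agent.Results.MP_f7d35b_an.ReducingIffProduct

open Pool.Agent.AglerBidisk

/-- Sanity check: the hypotheses on the Hardy space can be satisfied. -/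
theorem exists_hardySpace : ∃ (H : Type) (_ : NormedAddCommGroup H) (_ : InnerProductSpace ℂ H)
    (_ : CompleteSpace H) (_ : RKHS ℂ H Bidisk ℂ), IsHardySpace H ∧ ∃ S₁ S₂ : H →L[ℂ] H,
      (∀ (f : H) (z : Bidisk), S₁ f z = z.1.1 * f z) ∧
      ∀ (f : H) (z : Bidisk), S₂ f z = z.1.2 * f z := by
  have hpos : (Matrix.of szegoKernel).PosSemidef := by
    have h1 := posSemidef_gram (fun z : Bidisk => szego z)
    have h2 : (Matrix.of fun z w => ⟪szego z, szego w⟫_ℂ) = Matrix.of szegoKernel := by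
      ext z w
      exact sz_eq_szegoKernel z w
    rwa [h2] at h1
  have hf : Fact (opKernel szegoKernel).PosSemidef := ⟨opKernel_posSemidef hpos⟩
  refine ⟨RKHS.OfKernel (opKernel szegoKernel), inferInstance, inferInstance, inferInstance,
    inferInstance, ?_, ?_⟩
  · exact RKHS.OfKernel.kernel_ofKernel
  · obtain ⟨U, hU⟩ := exists_U (H := RKHS.OfKernel (opKernel szegoKernel))
      RKHS.OfKernel.kernel_ofKernel
    refine ⟨U.symm.toContinuousLinearEquiv.toContinuousLinearMap ∘L T₁ ∘L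
      U.toContinuousLinearEquiv.toContinuousLinearMap,
      U.symm.toContinuousLinearEquiv.toContinuousLinearMap ∘L T₂ ∘L
      U.toContinuousLinearEquiv.toContinuousLinearMap, fun f z => ?_, fun f z => ?_⟩
    · change (U.symm (T₁ (U f))) z = _
      rw [← hU, U.apply_symm_apply, ev_T₁, hU]
    · change (U.symm (T₂ (U f))) z = _
      rw [← hU, U.apply_symm_apply, ev_T₂, hU]

variable {H : Type} [NormedAddCommGroup H] [InnerProductSpace ℂ H] [CompleteSpace H]
  [RKHS ℂ H Bidisk ℂ]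

/-- Sanity check: for a pair of Agler kernels, every function in the reproducing kernel Hilbert
space of `K₁(z, w) / (1 - z₁ w₁^*)` does lie in `K_θ`, so that `aglerSubspace H θ (kern₁ K₁)` is a
copy of the whole space `𝓗(K₁(z, w) / (1 - z₁ w₁^*))`. -/
theorem exists_mem_aglerSubspace₁ (hH : IsHardySpace H) {θ : ℂ × ℂ → ℂ} (hθ : IsInner₂ θ)
    {K₁ K₂ : Bidisk → Bidisk → ℂ} (hK : IsAglerPair θ K₁ K₂) {g : Bidisk → ℂ}
    (hg : MemRKHS (kern₁ K₁) g) :
    ∃ f ∈ aglerSubspace H θ (kern₁ K₁), ∀ z : Bidisk, (f : H) z = g z := by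
  obtain ⟨U, hU⟩ := exists_U hH
  obtain ⟨M, hM⟩ := exists_isometry hθ
  have h₁ : Fact (opKernel (kern₁ K₁)).PosSemidef :=
    ⟨opKernel_posSemidef (posSemidef_kern₁ hK.pos₁)⟩
  have h₂ : Fact (opKernel (kern₂ K₂)).PosSemidef :=
    ⟨opKernel_posSemidef (posSemidef_kern₂ hK.pos₂)⟩
  obtain ⟨V₁, V₂, D, hJ₁, hJ₂⟩ := exists_aglerData hM hK
  obtain ⟨h₁', h, hh⟩ := hg
  have hmem : ContinuousLinearMap.adjoint V₁ h ∈ mSpace θ := by
    rw [mem_mSpace_iff hM]
    intro g
    rw [ContinuousLinearMap.adjoint_inner_right, D.V₁_M, inner_zero_left]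
  have hval : ∀ z : Bidisk, (U.symm (ContinuousLinearMap.adjoint V₁ h)) z = h z := fun z => by
    rw [← hU, U.apply_symm_apply]
    exact hJ₁ h z
  have hmem' : U.symm (ContinuousLinearMap.adjoint V₁ h) ∈ modelSpace H θ := by
    rw [← U_mem hU, U.apply_symm_apply]
    exact hmem
  refine ⟨⟨_, hmem'⟩, ⟨h₁', h, ?_⟩, fun z => ?_⟩
  · funext z
    exact (hval z).symm
  · exact (hval z).trans (congrFun hh z)

/-- Sanity check: for a pair of Agler kernels, every function in the reproducing kernel Hilbert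
space of `K₂(z, w) / (1 - z₂ w₂^*)` does lie in `K_θ`. -/
theorem exists_mem_aglerSubspace₂ (hH : IsHardySpace H) {θ : ℂ × ℂ → ℂ} (hθ : IsInner₂ θ)
    {K₁ K₂ : Bidisk → Bidisk → ℂ} (hK : IsAglerPair θ K₁ K₂) {g : Bidisk → ℂ}
    (hg : MemRKHS (kern₂ K₂) g) :
    ∃ f ∈ aglerSubspace H θ (kern₂ K₂), ∀ z : Bidisk, (f : H) z = g z := by
  obtain ⟨U, hU⟩ := exists_U hH
  obtain ⟨M, hM⟩ := exists_isometry hθ
  have h₁ : Fact (opKernel (kern₁ K₁)).PosSemidef :=
    ⟨opKernel_posSemidef (posSemidef_kern₁ hK.pos₁)⟩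
  have h₂ : Fact (opKernel (kern₂ K₂)).PosSemidef :=
    ⟨opKernel_posSemidef (posSemidef_kern₂ hK.pos₂)⟩
  obtain ⟨V₁, V₂, D, hJ₁, hJ₂⟩ := exists_aglerData hM hK
  obtain ⟨h₂', h, hh⟩ := hg
  have hmem : ContinuousLinearMap.adjoint V₂ h ∈ mSpace θ := by
    rw [mem_mSpace_iff hM]
    intro g
    rw [ContinuousLinearMap.adjoint_inner_right, D.symm.V₁_M, inner_zero_left]
  have hval : ∀ z : Bidisk, (U.symm (ContinuousLinearMap.adjoint V₂ h)) z = h z := fun z => by
    rw [← hU, U.apply_symm_apply]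
    exact hJ₂ h z
  have hmem' : U.symm (ContinuousLinearMap.adjoint V₂ h) ∈ modelSpace H θ := by
    rw [← U_mem hU, U.apply_symm_apply]
    exact hmem
  refine ⟨⟨_, hmem'⟩, ⟨h₂', h, ?_⟩, fun z => ?_⟩
  · funext z
    exact (hval z).symm
  · exact (hval z).trans (congrFun hh z)

/-- The forward implication in the coefficient model. -/
theorem isProduct_of_hasRed {θ : ℂ × ℂ → ℂ} (hθ : IsInner₂ θ)
    (h : HasRed θ AglerBidisk.T₁ ∨ HasRed θ AglerBidisk.T₂) : IsProductOfInner θ := by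
  obtain ⟨M, hM⟩ := exists_isometry hθ
  have hrank : ∀ i m n n' : ℕ,
      M (lp.single 2 (0, 0) 1) (i, n) * M (lp.single 2 (0, 0) 1) (m, n') =
      M (lp.single 2 (0, 0) 1) (i, n') * M (lp.single 2 (0, 0) 1) (m, n) := by
    rcases h with ⟨K₁, K₂, hK, h1, -⟩ | ⟨K₁, K₂, hK, -, h2⟩
    · exact rank_one₁ hM hK fun f hf => (h1 f hf).2
    · exact rank_one₂ hM hK fun f hf => (h2 f hf).2
  refine isProduct_of_exchange hθ fun z hz w hw => ?_
  have hzw : (z.1, w.2) ∈ Bidisk := mem_Bidisk.2 ⟨(mem_Bidisk.1 hz).1, (mem_Bidisk.1 hw).2⟩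
  have hwz : (w.1, z.2) ∈ Bidisk := mem_Bidisk.2 ⟨(mem_Bidisk.1 hw).1, (mem_Bidisk.1 hz).2⟩
  have h1 := exchange_of_rank_one hrank hz hw
  have h2 : ∀ z ∈ Bidisk, ev (M (lp.single 2 (0, 0) 1)) z = θ z := fun z hz =>
    ev_M_single hM ⟨z, hz⟩
  rw [h2 z hz, h2 w hw, h2 _ hzw, h2 _ hwz] at h1
  exact h1

/-- **Main theorem.**  Let `H` be the Hardy space of the bidisk, `T₁`, `T₂` the multiplication
operators by `z₁`, `z₂`, and let `θ` be any inner function on the bidisk.  At least one of the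
compressed shifts `S_{z₁}`, `S_{z₂}` has reducing Agler subspaces if and only if
`θ(z) = φ(z₁) ψ(z₂)` for some one-variable inner functions `φ`, `ψ`.  The same holds under the
strongest reading of reducing Agler subspaces (closed, orthogonal complements of each other
in `K_θ`). -/
theorem result {H : Type} [NormedAddCommGroup H] [InnerProductSpace ℂ H] [CompleteSpace H]
    [RKHS ℂ H Bidisk ℂ] (hH : IsHardySpace H) (T₁ T₂ : H →L[ℂ] H)
    (hT₁ : ∀ (f : H) (z : Bidisk), T₁ f z = z.1.1 * f z)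
    (hT₂ : ∀ (f : H) (z : Bidisk), T₂ f z = z.1.2 * f z)
    (θ : ℂ × ℂ → ℂ) (hθ : IsInner₂ θ) :
    ((HasReducingAglerSubspaces θ T₁ ∨ HasReducingAglerSubspaces θ T₂) ↔ IsProductOfInner θ) ∧
    ((HasOrthogonalReducingAglerSubspaces θ T₁ ∨ HasOrthogonalReducingAglerSubspaces θ T₂) ↔
      IsProductOfInner θ) := by
  obtain ⟨U, hU⟩ := exists_U hH
  have hfwd : (HasReducingAglerSubspaces θ T₁ ∨ HasReducingAglerSubspaces θ T₂) →
      IsProductOfInner θ := fun h =>
    isProduct_of_hasRed hθ (h.imp (hasRed_of hU (U_comm₁ hU hT₁)) (hasRed_of hU (U_comm₂ hU hT₂)))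
  have hweak : ∀ T : H →L[ℂ] H, HasOrthogonalReducingAglerSubspaces θ T →
      HasReducingAglerSubspaces θ T := by
    rintro T ⟨K₁, K₂, hK, M₁, M₂, -, -, e₁, e₂, h1, h2⟩
    exact ⟨K₁, K₂, hK, e₁ ▸ h1, e₂ ▸ h2⟩
  have hback : IsProductOfInner θ → HasOrthogonalReducingAglerSubspaces θ T₁ := fun h =>
    hasOrthRed_of hU (U_comm₁ hU hT₁) (orthogonalReducing_of_isProduct h)
  exact ⟨⟨hfwd, fun h => Or.inl (hweak _ (hback h))⟩,
    ⟨fun h => hfwd (h.imp (hweak _) (hweak _)), fun h => Or.inl (hback h)⟩⟩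

end Pool.Agent.Results.MP_f7d35b_an.ReducingIffProduct
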